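import Pool.Agent.Q208.CN.Fin2

/-!
# Cantor series distribution normality never coincides with continued fraction normality

For every basic sequence `Q` there is a number that is normal with respect to the regular continued
fraction expansion and is not `Q`-distribution normal.
-/

set_option autoImplicit false

namespace Pool.Agent.Results.MP_2274bf_nt.NeverEqual

open Set Filter Topology MeasureTheory

/-- the Gauss map `G y = 1 / y mod 1` -/
noncomputable def G (y : ℝ) : ℝ := Int.fract (1 / y)

/-- the partial quotient `a_(n+1) = ⌊1 / G ^ n y⌋` of `y ∈ (0, 1)` -/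
noncomputable def a (y : ℝ) (n : ℕ) : ℤ := ⌊1 / G^[n] y⌋

/-- the numbers of `(0, 1)` whose partial quotients begin with `w` -/
def I (w : List ℕ) : Set ℝ := {y | y ∈ Ioo (0 : ℝ) 1 ∧ ∀ i : ℕ, ∀ h : i < w.length, a y i = w[i]}

/-- the Gauss measure -/
noncomputable def gaussMeasure (A : Set ℝ) : ℝ := 1 / Real.log 2 * ∫ y in A, 1 / (1 + y)

/-- the numbers that are normal with respect to the regular continued fraction expansion -/
def NCF : Set ℝ := {x | Irrational (Int.fract x) ∧ ∀ w : List ℕ, w ≠ [] → (∀ b ∈ w, 1 ≤ b) →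
  Tendsto (fun N : ℕ => (((Finset.range N).filter fun n =>
    ∀ i : ℕ, ∀ h : i < w.length, a (Int.fract x) (n + i) = w[i]).card : ℝ) / N) atTop
    (𝓝 (gaussMeasure (I w)))}

/-- `T_(Q,n)(x) = q_1 q_2 ... q_n x mod 1`, where `q_(i+1) = q i` -/
noncomputable def T (q : ℕ → ℕ) (n : ℕ) (x : ℝ) : ℝ :=
  Int.fract ((∏ i ∈ Finset.range n, (q i : ℝ)) * x)

/-- uniform distribution of a sequence of points of `[0, 1)` -/
def UD (s : ℕ → ℝ) : Prop := ∀ α β : ℝ, 0 ≤ α → α < β → β ≤ 1 →
  Tendsto (fun N : ℕ => (((Finset.range N).filter fun n => s n ∈ Ico α β).card : ℝ) / N) atTop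
    (𝓝 (β - α))

/-- the `Q`-distribution normal numbers -/
def DN (q : ℕ → ℕ) : Set ℝ := {x | UD fun n => T q n x}

open Pool.Agent.Q208.CN Q261.CFD

lemma G_eq : G = gauss := by
  funext y
  unfold G gauss
  rw [one_div]

lemma a_eq (y : ℝ) (n : ℕ) : a y n = digit y n := by
  unfold a digit
  rw [G_eq, one_div]

lemma I_eq {w : List ℕ} (hc : ∀ b ∈ w, 1 ≤ b) : I w = Pool.Agent.Q208.CN.cyl w := by
  ext y
  simp only [I, Pool.Agent.Q208.CN.cyl, mem_setOf_eq, a_eq]
  apply and_congr_right
  intro _
  apply forall_congr'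
  intro i
  apply forall_congr'
  intro h
  have h1 : 1 ≤ w[i] := hc _ (List.getElem_mem _)
  unfold dig
  omega

lemma gaussMeasure_eq (w : List ℕ) (hc : ∀ b ∈ w, 1 ≤ b) : gaussMeasure (I w) = mu w := by
  rw [I_eq hc]
  unfold mu gaussMeasure
  rw [gm_apply (measurableSet_cyl w), inter_eq_self_of_subset_left (fun y hy => hy.1),
    ← integral_const_mul]
  have h1 : ∀ y : ℝ, 1 / Real.log 2 * (1 / (1 + y)) = (Real.log 2)⁻¹ * (1 + y)⁻¹ := by
    intro y; rw [one_div, one_div]
  simp only [h1]
  rw [integral_eq_lintegral_of_nonneg_ae]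
  · rfl
  · filter_upwards [ae_restrict_mem (measurableSet_cyl w)] with y hy
    have := hy.1.1
    have hl : 0 < Real.log 2 := Real.log_pos (by norm_num)
    have : 0 < 1 + y := by linarith
    show 0 ≤ (Real.log 2)⁻¹ * (1 + y)⁻¹
    positivity
  · apply Measurable.aestronglyMeasurable
    fun_prop

theorem result : ∀ q : ℕ → ℕ, (∀ n, 2 ≤ q n) → (∃ x ∈ NCF, x ∉ DN q) ∧ DN q ≠ NCF := by
  intro q hq
  have main : ∃ x ∈ NCF, x ∉ DN q := by
    obtain ⟨e, n, U, he, -, hU, hS⟩ := exists_chain hq
    have hS' : ∀ j, Step (fun m => ∏ i ∈ Finset.range m, q i) (Wj e) n j (U j) (U (j + 1)) := hS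
    obtain ⟨x, hx0, hxi, hxd, hxg⟩ := exists_num (a := aa U) (aa_pos hS' hU)
    have hfr : Int.fract x = x := Int.fract_eq_self.2 ⟨hx0.1.le, hx0.2⟩
    refine ⟨x, ⟨by rw [hfr]; exact hxi, fun w hc0 hc => ?_⟩, fun hDN => ?_⟩
    · rw [gaussMeasure_eq w hc, hfr]
      obtain ⟨i, hi⟩ := he ⟨w, hc0, hc⟩
      have h1 := chain_freq hS' i
      rw [hi] at h1
      refine h1.congr fun N => ?_
      congr 2
      unfold cnt
      congr 1
      apply Finset.filter_congr
      intro m _
      apply forall_congr'
      intro k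
      apply forall_congr'
      intro hk
      rw [a_eq, ← hxd]
      have h2 : 1 ≤ w[k] := hc _ (List.getElem_mem _)
      unfold dig
      show (digit x (m + k)).toNat = w[k] ↔ digit x (m + k) = (w[k] : ℤ)
      omega
    · have h1 := hDN (1 / 50) (49 / 50) (by norm_num) (by norm_num) (by norm_num)
      rw [Metric.tendsto_atTop] at h1
      obtain ⟨N₀, hN₀⟩ := h1 (1 / 10) (by norm_num)
      obtain ⟨v, A, m, g1, g2, g3, g4, g5, g6, -, -⟩ := hS' (N₀ + 1)
      have hm : 0 < m := by omega
      have h2 := hN₀ (2 * m) (by omega)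
      set u := U (N₀ + 1) with hu
      have hpu : Pos (u ++ v) := (hU _).append g2
      have hq0 := q0_pos hpu
      have hq0' : (0 : ℝ) < q0 (u ++ v) := by exact_mod_cast hq0
      have hA : (0 : ℝ) < A := by exact_mod_cast g3
      -- the number is close to the fraction
      have hclose : |x - phi (u ++ v) 0| ≤ 1 / A := by
        have h3 := hxg (U (N₀ + 1 + 1)).length
        rw [pre_aa hS', g1, phi_append] at h3
        obtain ⟨h4, h5⟩ := h3
        generalize gauss^[(u ++ v ++ [A]).length] x = y at h4 h5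
        rw [h5]
        refine (phi_lip hpu (phi_nonneg h4.1.le) le_rfl).trans ?_
        rw [sub_zero, abs_of_nonneg (phi_nonneg h4.1.le), phi_cons, phi_nil, one_div]
        apply inv_anti₀ hA
        linarith [h4.1]
      have hout : ∀ k, m ≤ k → k < 2 * m → T q k x ∉ Ico (1 / 50 : ℝ) (49 / 50) := by
        intro k hk1 hk2
        have hdm : (∏ i ∈ Finset.range m, q i) ∣ ∏ i ∈ Finset.range k, q i :=
          Finset.prod_dvd_prod_of_subset _ _ _ (Finset.range_subset_range.2 hk1)
        have hdk : (∏ i ∈ Finset.range k, q i) ∣ ∏ i ∈ Finset.range (2 * m), q i :=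
          Finset.prod_dvd_prod_of_subset _ _ _ (Finset.range_subset_range.2 hk2.le)
        obtain ⟨r, hr⟩ := g5.trans hdm
        have hle : 100 * ∏ i ∈ Finset.range k, q i ≤ A := by
          refine le_trans (Nat.mul_le_mul_left _ (Nat.le_of_dvd ?_ hdk)) g6
          exact Finset.prod_pos fun i _ => by have := hq i; omega
        have hb : (∏ i ∈ Finset.range k, (q i : ℝ)) = ((∏ i ∈ Finset.range k, q i : ℕ) : ℝ) := by
          push_cast; rfl
        set bk : ℕ := ∏ i ∈ Finset.range k, q i with hbk
        have h3 : (bk : ℝ) * phi (u ++ v) 0 = ((r * p0 (u ++ v) : ℕ) : ℤ) := by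
          rw [phi_zero hpu]
          have : (bk : ℝ) = q0 (u ++ v) * r := by exact_mod_cast hr
          rw [this]
          push_cast
          field_simp
        have h4 : (bk : ℝ) * x = (((r * p0 (u ++ v) : ℕ) : ℤ) : ℝ) +
            bk * (x - phi (u ++ v) 0) := by
          rw [← h3]; ring
        have h5 : |(bk : ℝ) * (x - phi (u ++ v) 0)| ≤ 1 / 100 := by
          rw [abs_mul, abs_of_nonneg (Nat.cast_nonneg bk)]
          have h6 : (100 : ℝ) * bk ≤ A := by exact_mod_cast hle
          have h7 : (bk : ℝ) * |x - phi (u ++ v) 0| ≤ bk * (1 / A) :=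
            mul_le_mul_of_nonneg_left hclose (Nat.cast_nonneg _)
          have h8 : (bk : ℝ) * (1 / A) ≤ 1 / 100 := by
            rw [mul_one_div, div_le_div_iff₀ hA (by norm_num)]
            linarith
          linarith
        unfold T
        rw [hb, h4, Int.fract_intCast_add]
        generalize (bk : ℝ) * (x - phi (u ++ v) 0) = δ at h5
        rw [abs_le] at h5
        rcases le_or_gt 0 δ with h6 | h6
        · rw [Int.fract_eq_self.2 ⟨h6, by linarith⟩]
          intro h7
          linarith [h7.1]
        · have h7 : Int.fract δ = δ + 1 := by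
            rw [Int.fract_eq_iff]
            exact ⟨by linarith, by linarith, -1, by push_cast; ring⟩
          rw [h7]
          intro h8
          linarith [h8.2]
      have hcard : (((Finset.range (2 * m)).filter fun n =>
          T q n x ∈ Ico (1 / 50 : ℝ) (49 / 50)).card : ℝ) ≤ m := by
        have h3 : ((Finset.range (2 * m)).filter fun n =>
            T q n x ∈ Ico (1 / 50 : ℝ) (49 / 50)) ⊆ Finset.range m := by
          intro k hk
          rw [Finset.mem_filter, Finset.mem_range] at hk
          rw [Finset.mem_range]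
          by_contra h4
          exact hout k (not_lt.1 h4) hk.1 hk.2
        have h4 := Finset.card_le_card h3
        rw [Finset.card_range] at h4
        exact_mod_cast h4
      rw [Real.dist_eq, abs_lt] at h2
      have hm' : (0 : ℝ) < m := by exact_mod_cast hm
      have h3 : (((Finset.range (2 * m)).filter fun n =>
          T q n x ∈ Ico (1 / 50 : ℝ) (49 / 50)).card : ℝ) / ((2 * m : ℕ) : ℝ) ≤ 1 / 2 := by
        rw [div_le_div_iff₀ (by push_cast; positivity) (by norm_num)]
        push_cast
        linarith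
      linarith [h2.1]
  refine ⟨main, fun h => ?_⟩
  obtain ⟨x, h1, h2⟩ := main
  exact h2 (h ▸ h1)

end Pool.Agent.Results.MP_2274bf_nt.NeverEqual
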